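import Mathlib
import Pool.Agent.TH705.DL.TransM

set_option autoImplicit false

/-!
# Large values of Dirichlet polynomials on independently translated pieces (MP_ecd12e_nt)
-/

namespace Pool.Agent.Results.MP_ecd12e_nt.IndependentTranslations

open Finset MeasureTheory

/-- `D(t) = ∑_{N ≤ n ≤ 2N} b_n n^{it}` -/
noncomputable def D (N : ℕ) (b : ℕ → ℂ) (t : ℝ) : ℂ :=
  ∑ n ∈ Icc N (2 * N), b n * Complex.exp (Complex.I * (t : ℂ) * (Real.log (n : ℝ) : ℂ))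

/-- Let `P_j` (`j` in a finite index set `ι`) be finite `1`-separated sets of reals, each contained
in an interval of length `N`, with `R = ∑_j |P_j|` points, and let `h, δ > 0`.  Outside a measurable
set `E` of translation vectors `u ∈ [0,h]^ι` of measure at most `δ h^|ι|`, the following holds for
ALL coefficients `b` simultaneously, with `L = 1 + log N`:

(a) `∑_j ∑_{t ∈ P_j} |D(t + u_j)|² ≤ 54 L³ (R (1 + N/h) + N log(2N/δ)) ∑_{N ≤ n ≤ 2N} |b_n|²`;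

(b) if `|b_n| ≤ 1` for `N ≤ n ≤ 2N`, then for every real `σ` the number of pairs `(j,t)`,
`t ∈ P_j`, with `|D(t + u_j)| > N^σ` is at most
`108 L³ ((R/N) (1 + N/h) + log(2N/δ)) N^(2-2σ)`. -/
theorem result {ι : Type*} [Fintype ι] (N : ℕ) (hN : 1 ≤ N) (P : ι → Finset ℝ)
    (hsep : ∀ j, ∀ t ∈ P j, ∀ t' ∈ P j, t ≠ t' → 1 ≤ |t - t'|)
    (hlen : ∀ j, ∃ x : ℝ, ∀ t ∈ P j, x ≤ t ∧ t ≤ x + N)
    (h δ : ℝ) (hh : 0 < h) (hδ : 0 < δ) :
    ∃ E : Set (ι → ℝ), MeasurableSet E ∧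
      volume E ≤ ENNReal.ofReal (δ * h ^ Fintype.card ι) ∧
      ∀ u : ι → ℝ, (∀ j, u j ∈ Set.Icc 0 h) → u ∉ E → ∀ b : ℕ → ℂ,
        (∑ j, ∑ t ∈ P j, ‖D N b (t + u j)‖ ^ 2 ≤
          54 * (1 + Real.log N) ^ 3 *
            ((∑ j, ((P j).card : ℝ)) * (1 + N / h) + N * Real.log (2 * N / δ)) *
            ∑ n ∈ Icc N (2 * N), ‖b n‖ ^ 2) ∧
        ((∀ n ∈ Icc N (2 * N), ‖b n‖ ≤ 1) → ∀ σ : ℝ,
          ∑ j, (((P j).filter (fun t => (N : ℝ) ^ σ < ‖D N b (t + u j)‖)).card : ℝ) ≤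
          108 * (1 + Real.log N) ^ 3 *
            ((∑ j, ((P j).card : ℝ)) / N * (1 + N / h) + Real.log (2 * N / δ)) *
            (N : ℝ) ^ (2 - 2 * σ)) := by
  classical
  obtain ⟨E, hE, hv, hmain⟩ := TH705.DL.trans_main N hN P hsep hlen h δ hh hδ
  refine ⟨E, hE, hv, fun u hu huE b => ?_⟩
  have ha : ∑ j, ∑ t ∈ P j, ‖D N b (t + u j)‖ ^ 2 ≤
          54 * (1 + Real.log N) ^ 3 *
            ((∑ j, ((P j).card : ℝ)) * (1 + N / h) + N * Real.log (2 * N / δ)) *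
            ∑ n ∈ Icc N (2 * N), ‖b n‖ ^ 2 := hmain u hu huE b
  refine ⟨ha, fun hb σ => ?_⟩
  have hN1 : (1:ℝ) ≤ N := by exact_mod_cast hN
  have hN0 : (0:ℝ) < N := by linarith
  have hl : 0 ≤ Real.log N := Real.log_nonneg hN1
  set R : ℝ := ∑ j, ((P j).card : ℝ) with hR
  set K : ℝ := R * (1 + N / h) + N * Real.log (2 * N / δ) with hK
  have h1 : ∑ n ∈ Icc N (2 * N), ‖b n‖ ^ 2 ≤ 2 * N := by
    calc ∑ n ∈ Icc N (2 * N), ‖b n‖ ^ 2 ≤ ∑ n ∈ Icc N (2 * N), (1:ℝ) := by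
          apply sum_le_sum
          intro n hn
          exact pow_le_one₀ (norm_nonneg _) (hb n hn)
      _ = ((2 * N + 1 - N : ℕ) : ℝ) := by simp
      _ ≤ 2 * N := by
          have : 2 * N + 1 - N ≤ 2 * N := by omega
          exact_mod_cast this
  have h2 : (∑ j, (((P j).filter (fun t => (N : ℝ) ^ σ < ‖D N b (t + u j)‖)).card : ℝ)) *
      ((N : ℝ) ^ σ) ^ 2 ≤ ∑ j, ∑ t ∈ P j, ‖D N b (t + u j)‖ ^ 2 := by
    rw [sum_mul]
    apply sum_le_sum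
    intro j _
    calc (((P j).filter (fun t => (N : ℝ) ^ σ < ‖D N b (t + u j)‖)).card : ℝ) * ((N : ℝ) ^ σ) ^ 2
        = ∑ t ∈ (P j).filter (fun t => (N : ℝ) ^ σ < ‖D N b (t + u j)‖), ((N : ℝ) ^ σ) ^ 2 := by
          rw [sum_const, nsmul_eq_mul]
      _ ≤ ∑ t ∈ (P j).filter (fun t => (N : ℝ) ^ σ < ‖D N b (t + u j)‖),
            ‖D N b (t + u j)‖ ^ 2 := by
          apply sum_le_sum
          intro t ht
          exact pow_le_pow_left₀ (by positivity) (mem_filter.1 ht).2.le 2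
      _ ≤ _ := sum_le_sum_of_subset_of_nonneg (filter_subset _ _) (fun _ _ _ => by positivity)
  -- the constant is nonnegative as soon as something is to be shown
  have h3 : 0 ≤ ∑ j, ∑ t ∈ P j, ‖D N b (t + u j)‖ ^ 2 :=
    sum_nonneg fun _ _ => sum_nonneg fun _ _ => by positivity
  -- `K ≥ 0`: apply (a) to a nonzero coefficient sequence
  have hK0 : 0 ≤ 54 * (1 + Real.log N) ^ 3 * K := by
    have h4 := hmain u hu huE (fun n => if n = N then 1 else 0)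
    have h5 : ∑ n ∈ Icc N (2 * N), ‖(if n = N then (1:ℂ) else 0)‖ ^ 2 = 1 := by
      rw [sum_eq_single N]
      · simp
      · intro n _ hn
        simp [hn]
      · intro hn
        exact absurd (mem_Icc.2 ⟨le_rfl, by omega⟩) hn
    rw [h5, mul_one] at h4
    exact le_trans (sum_nonneg fun _ _ => sum_nonneg fun _ _ => by positivity) h4
  have h6 : (∑ j, (((P j).filter (fun t => (N : ℝ) ^ σ < ‖D N b (t + u j)‖)).card : ℝ)) *
      ((N : ℝ) ^ σ) ^ 2 ≤ 54 * (1 + Real.log N) ^ 3 * K * (2 * N) :=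
    h2.trans (ha.trans (mul_le_mul_of_nonneg_left h1 hK0))
  have h7 : (0:ℝ) < ((N : ℝ) ^ σ) ^ 2 := by positivity
  rw [← le_div_iff₀ h7] at h6
  refine h6.trans (le_of_eq ?_)
  have h8 : (N : ℝ) ^ (2 - 2 * σ) = (N:ℝ) ^ 2 / ((N : ℝ) ^ σ) ^ 2 := by
    rw [Real.rpow_sub hN0]
    congr 1
    · exact_mod_cast Real.rpow_natCast (N:ℝ) 2
    · rw [mul_comm, Real.rpow_mul hN0.le]
      exact_mod_cast Real.rpow_natCast ((N:ℝ) ^ σ) 2
  rw [h8, hK]
  field_simp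
  ring

end Pool.Agent.Results.MP_ecd12e_nt.IndependentTranslations
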