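import Pool.Agent.TH961.SD.Main

set_option autoImplicit false

/-!
Large sieve and large values of Dirichlet polynomials for generic large dilates of an arbitrary
`1`-separated set: third moment method.
-/

namespace Pool.Agent.Results.MP_ecd12e_nt.LargeDilates

open Finset MeasureTheory

theorem sum_ext (N : ℕ) (hN : 1 ≤ N) (b : ℕ → ℂ) (g : ℕ → ℂ) :
    ∑ n ∈ Icc 1 (2 * N), (if N ≤ n then b n else 0) * g n = ∑ n ∈ Icc N (2 * N), b n * g n := by
  have h : Icc N (2 * N) = (Icc 1 (2 * N)).filter (fun n => N ≤ n) := by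
    ext n
    simp only [mem_Icc, mem_filter]
    omega
  rw [h, sum_filter]
  apply sum_congr rfl
  intro n _
  split_ifs <;> simp

theorem sum_ext' (N : ℕ) (hN : 1 ≤ N) (b : ℕ → ℂ) :
    ∑ n ∈ Icc 1 (2 * N), ‖(if N ≤ n then b n else 0)‖ ^ 2 = ∑ n ∈ Icc N (2 * N), ‖b n‖ ^ 2 := by
  have h : Icc N (2 * N) = (Icc 1 (2 * N)).filter (fun n => N ≤ n) := by
    ext n
    simp only [mem_Icc, mem_filter]
    omega
  rw [h, sum_filter]
  apply sum_congr rfl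
  intro n _
  split_ifs <;> simp

theorem result (N : ℕ) (hN : 1 ≤ N) (S : Finset ℝ)
    (hS : ∀ s ∈ S, ∀ t ∈ S, s ≠ t → 1 ≤ |s - t|) (Λ η : ℝ) (hΛ : 2 ^ 15 * (N : ℝ) ^ 8 ≤ Λ)
    (hη : 0 < η) :
    ∃ E : Set ℝ, MeasurableSet E ∧ volume E ≤ ENNReal.ofReal (η * Λ) ∧
      ∀ x ∈ Set.Icc Λ (2 * Λ), x ∉ E →
      (∀ b : ℕ → ℂ, ∑ s ∈ S, ‖∑ n ∈ Icc N (2 * N), b n *
        Complex.exp ((x * s * Real.log n : ℝ) * Complex.I)‖ ^ 2 ≤
          (2 * N + ((24 * (N : ℝ) ^ 2 * (S.card : ℝ) ^ 2 +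
            10 * N * (1 + Real.log (2 * N)) ^ 2 * (S.card : ℝ) ^ 3) / η) ^ (1 / 3 : ℝ)) *
              ∑ n ∈ Icc N (2 * N), ‖b n‖ ^ 2) ∧
      (∀ (b : ℕ → ℂ) (V : ℝ), (∀ n, ‖b n‖ ≤ 1) → 0 < V →
        544 * (N : ℝ) ^ 4 * (1 + Real.log (2 * N)) ^ 2 ≤ η * V ^ 6 →
        (∀ s ∈ S, V ≤ ‖∑ n ∈ Icc N (2 * N), b n *
          Complex.exp ((x * s * Real.log n : ℝ) * Complex.I)‖) →
        (S.card : ℝ) ≤ 12 * ((N : ℝ) ^ 2 / V ^ 2) + 1312 / η * ((N : ℝ) ^ 5 / V ^ 6)) := by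
  have hM : 1 ≤ 2 * N := by omega
  have hΛ' : 128 * ((2 * N : ℕ) : ℝ) ^ 8 ≤ Λ := by
    refine le_trans (le_of_eq ?_) hΛ
    push_cast; ring
  obtain ⟨E, hE1, hE2, hE3⟩ := Pool.Agent.TH961.SD.final (2 * N) hM S hS Λ η hΛ' hη
  refine ⟨E, hE1, hE2, ?_⟩
  intro x hx hxE
  obtain ⟨h1, h2⟩ := hE3 x hx hxE
  refine ⟨?_, ?_⟩
  · intro b
    have h := h1 (fun n => if N ≤ n then b n else 0)
    rw [sum_ext' N hN b] at h
    have e : ∀ s : ℝ, ∑ n ∈ Icc 1 (2 * N), (if N ≤ n then b n else 0) *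
        Complex.exp ((x * s * Real.log n : ℝ) * Complex.I) = ∑ n ∈ Icc N (2 * N), b n *
        Complex.exp ((x * s * Real.log n : ℝ) * Complex.I) := fun s => sum_ext N hN b _
    simp only [e] at h
    refine h.trans (le_of_eq ?_)
    have hF : Pool.Agent.TH961.SD.FF (2 * N) S.card = 24 * (N : ℝ) ^ 2 * (S.card : ℝ) ^ 2 +
            10 * N * (1 + Real.log (2 * N)) ^ 2 * (S.card : ℝ) ^ 3 := by
      unfold Pool.Agent.TH961.SD.FF
      push_cast
      ring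
    rw [hF]
    push_cast
    rfl
  · intro b V hb hV hVN hlarge
    have h := h2 (fun n => if N ≤ n then b n else 0) V (fun n => by
      by_cases hn : N ≤ n
      · simp only [hn, if_true]; exact hb n
      · simp only [hn, if_false, norm_zero]; norm_num) hV (by
        refine le_trans (le_of_eq ?_) hVN
        push_cast; ring) (fun s hs => by
        have := hlarge s hs
        rw [sum_ext N hN b]
        exact this)
    refine h.trans (le_of_eq ?_)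
    push_cast
    ring

end Pool.Agent.Results.MP_ecd12e_nt.LargeDilates
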