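import Pool.Agent.TH804.DP7

/-!
# Montgomery's large value conjecture and the solutions of `∑_{n ∈ S} n^{-s} = a`

If a Dirichlet polynomial with coefficients bounded by 1 and frequencies in `[N, 2N]` omits one
value `a ≠ 0` near a point and to the right of it, then it is at most `N^κ` at this point. This
and a reduction to coefficients 0 and 1 turn the large value conjecture into a bound for the
number of solutions of the equations `∑_{n ∈ S} n^{-s} = a`, `S ⊆ [N, 2N]`.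
-/

set_option autoImplicit false

open Pool.Agent.TH804.DP

namespace Pool.Agent.Results.MP_ecd12e_nt.SolutionsOfSetSums

/-- the large value estimate of Q1 for given `σ` and `A` -/
def LargeValues (σ A : ℝ) : Prop := ∀ ε : ℝ, ε > 0 → ∃ C : ℝ,
  ∀ N : ℕ, 1 ≤ N → ∀ T : ℝ, (N : ℝ) ≤ T → T ≤ (N : ℝ) ^ A →
  ∀ b : ℕ → ℂ, (∀ n, ‖b n‖ ≤ 1) →
  ∀ W : Finset ℤ,
    (∀ t ∈ W, 0 ≤ (t : ℝ) ∧ (t : ℝ) ≤ T ∧
      (N : ℝ) ^ σ < ‖∑ n ∈ Finset.Icc N (2 * N),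
          b n * Complex.exp ((((t : ℝ) * Real.log (n : ℝ) : ℝ) : ℂ) * Complex.I)‖) →
    (W.card : ℝ) ≤ C * (N : ℝ) ^ (2 - 2 * σ + ε)

/-- The equation `∑_{n ∈ S} n^{-s} = a` has at most `B` solutions `s` with `Re s ≥ σ` and
`0 < Im s ≤ T`, counted with multiplicity. -/
def SolutionsLe (S : Finset ℕ) (a : ℂ) (σ T B : ℝ) : Prop := ∀ Z : Finset ℂ,
  (∀ z ∈ Z, ∑ n ∈ S, (n : ℂ) ^ (-z) = a ∧ σ ≤ z.re ∧ 0 < z.im ∧ z.im ≤ T) →
    ∑ z ∈ Z, (analyticOrderNatAt (fun s : ℂ => ∑ n ∈ S, (n : ℂ) ^ (-s) - a) z : ℝ) ≤ B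

/-- the bound `N^{2-2σ+ε}` for the number of solutions, for all sets `S ⊆ [N, 2N]` -/
def SolutionBound (a : ℂ) (σ A : ℝ) : Prop := ∀ ε : ℝ, ε > 0 → ∃ K : ℝ, ∃ N₀ : ℕ,
  ∀ N : ℕ, N₀ ≤ N → ∀ T : ℝ, (N : ℝ) ≤ T → T ≤ (N : ℝ) ^ A →
    ∀ S : Finset ℕ, S ⊆ Finset.Icc N (2 * N) → SolutionsLe S a σ T (K * (N : ℝ) ^ (2 - 2 * σ + ε))

lemma sum_conv {N : ℕ} (hN : 1 ≤ N) (b : ℕ → ℂ) (t : ℝ) :
    ‖∑ n ∈ Finset.Icc N (2 * N), b n * Complex.exp (((t * Real.log (n : ℝ) : ℝ) : ℂ) * Complex.I)‖ =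
      ‖P N (fun n => (starRingEnd ℂ) (b n)) ⟨0, t⟩‖ := by
  rw [← conj_sum hN b t]
  congr 1
  refine Finset.sum_congr rfl fun n _ => ?_
  congr 2
  push_cast
  ring

lemma largeValues_iff (σ A : ℝ) : LargeValues σ A ↔ LVs σ A := by
  classical
  constructor
  · intro h ε hε
    obtain ⟨C, hC⟩ := h ε hε
    refine ⟨C, fun N hN T hNT hTA b hb W hW => ?_⟩
    have h1 := hC N hN T hNT hTA (fun n => (starRingEnd ℂ) (b n)) (fun n => by
      rw [Complex.norm_conj]; exact hb n) (W.image (fun n : ℕ => (n : ℤ))) (fun t ht => by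
        rw [Finset.mem_image] at ht
        obtain ⟨m, hm, rfl⟩ := ht
        have h2 := hW m hm
        refine ⟨by positivity, by push_cast; exact h2.1, ?_⟩
        rw [sum_conv hN]
        simp only [Complex.conj_conj, Int.cast_natCast]
        exact h2.2)
    rwa [Finset.card_image_of_injective _ (fun x y hxy => by exact_mod_cast hxy)] at h1
  · intro h ε hε
    obtain ⟨C, hC⟩ := h ε hε
    refine ⟨C, fun N hN T hNT hTA b hb W hW => ?_⟩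
    have hcast : ∀ t ∈ W, ((t.toNat : ℕ) : ℝ) = (t : ℝ) := by
      intro t ht
      have h2 : 0 ≤ t := by exact_mod_cast (hW t ht).1
      have h3 : ((t.toNat : ℕ) : ℤ) = t := Int.toNat_of_nonneg h2
      exact_mod_cast congrArg (fun z : ℤ => (z : ℝ)) h3
    have h1 := hC N hN T hNT hTA (fun n => (starRingEnd ℂ) (b n)) (fun n => by
      rw [Complex.norm_conj]; exact hb n) (W.image Int.toNat) (fun t ht => by
        rw [Finset.mem_image] at ht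
        obtain ⟨m, hm, rfl⟩ := ht
        have h2 := hW m hm
        rw [hcast m hm]
        refine ⟨h2.2.1, ?_⟩
        rw [← sum_conv hN]
        exact h2.2.2)
    have hinj : Set.InjOn Int.toNat (W : Set ℤ) := by
      intro x hx y hy hxy
      have h3 := hcast x hx
      have h4 := hcast y hy
      rw [hxy, h4] at h3
      exact_mod_cast h3.symm
    rwa [Finset.card_image_of_injOn hinj] at h1

lemma F_eq {N : ℕ} {S : Finset ℕ} (hS : S ⊆ Finset.Icc N (2 * N)) (a : ℂ) :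
    F N a (ind S) = fun s : ℂ => ∑ n ∈ S, (n : ℂ) ^ (-s) - a := by
  funext s
  unfold F
  rw [P_ind hS]

lemma solutionsLe_iff {N : ℕ} {S : Finset ℕ} (hS : S ⊆ Finset.Icc N (2 * N)) (a : ℂ) (σ T B : ℝ) :
    SolutionsLe S a σ T B ↔ ∀ Z : Finset ℂ, (∀ z ∈ Z, F N a (ind S) z = 0 ∧ σ ≤ z.re ∧ 0 < z.im ∧ z.im ≤ T) →
      ∑ z ∈ Z, (analyticOrderNatAt (F N a (ind S)) z : ℝ) ≤ B := by
  unfold SolutionsLe
  rw [F_eq hS a]
  simp only [sub_eq_zero]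

lemma solutionBound_iff (a : ℂ) (σ A : ℝ) : SolutionBound a σ A ↔ ZPs a σ A := by
  constructor
  · intro h ε hε
    obtain ⟨K, N₀, hK⟩ := h ε hε
    exact ⟨K, N₀, fun N hN T hNT hTA S hS => (solutionsLe_iff hS a σ T _).1 (hK N hN T hNT hTA S hS)⟩
  · intro h ε hε
    obtain ⟨K, N₀, hK⟩ := h ε hε
    exact ⟨K, N₀, fun N hN T hNT hTA S hS => (solutionsLe_iff hS a σ T _).2 (hK N hN T hNT hTA S hS)⟩

/-- Let `a ≠ 0`. (1) If `D(s) = ∑_{N ≤ n ≤ 2N} b_n n^{-s}`, `|b_n| ≤ 1`, omits the value `a` at all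
`s` with `Re s ≥ σ - δ`, `|Im s - t| ≤ 2`, then `|D(σ + it)| ≤ N^κ`, `N` large. (2) The large value
estimates for all `σ > σ₀` hold iff the bounds for the number of solutions hold for all `σ > σ₀`.
(3) Q1 holds iff the bound for the solutions holds for all `A` and `σ > 1/2`. -/
theorem result (a : ℂ) (ha : a ≠ 0) :
    (∀ δ κ : ℝ, 0 < δ → 0 < κ → ∃ N₀ : ℕ, ∀ N : ℕ, N₀ ≤ N → ∀ b : ℕ → ℂ, (∀ n, ‖b n‖ ≤ 1) →
      ∀ σ t : ℝ, 1 / 2 ≤ σ → σ ≤ 1 →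
      (∀ z : ℂ, σ - δ ≤ z.re → |z.im - t| ≤ 2 → ∑ n ∈ Finset.Icc N (2 * N), b n * (n : ℂ) ^ (-z) ≠ a) →
        ‖∑ n ∈ Finset.Icc N (2 * N), b n * (n : ℂ) ^ (-(⟨σ, t⟩ : ℂ))‖ ≤ (N : ℝ) ^ κ) ∧
    (∀ σ₀ A : ℝ, 1 / 2 ≤ σ₀ →
      ((∀ σ : ℝ, σ₀ < σ → σ ≤ 1 → LargeValues σ A) ↔ ∀ σ : ℝ, σ₀ < σ → σ ≤ 1 → SolutionBound a σ A)) ∧
    ((∀ A σ : ℝ, σ > 1 / 2 → LargeValues σ A) ↔
      ∀ A σ : ℝ, 1 ≤ A → 1 / 2 < σ → σ ≤ 1 → SolutionBound a σ A) := by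
  have h2 : ∀ σ₀ A : ℝ, 1 / 2 ≤ σ₀ →
      ((∀ σ : ℝ, σ₀ < σ → σ ≤ 1 → LargeValues σ A) ↔ ∀ σ : ℝ, σ₀ < σ → σ ≤ 1 → SolutionBound a σ A) := by
    intro σ₀ A hσ₀
    constructor
    · intro h σ h1 h2
      exact (solutionBound_iff a σ A).2 (ZPs_of_LVs ha hσ₀ (fun σ h1 h2 => (largeValues_iff σ A).1 (h σ h1 h2)) σ h1 h2)
    · intro h σ h1 h2
      exact (largeValues_iff σ A).2 (LVs_of_ZPs ha hσ₀ (fun σ h1 h2 => (solutionBound_iff a σ A).1 (h σ h1 h2)) σ h1 h2)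
  refine ⟨?_, h2, ?_⟩
  · intro δ κ hδ hκ
    obtain ⟨N₁, h₁⟩ := F_window ha (δ := min (δ / 3) (1 / 12)) (κ := κ / 2) (by positivity) (min_le_right _ _)
      (by positivity)
    obtain ⟨N₂, hN₂⟩ := Filter.eventually_atTop.1 (((tendsto_rpow_atTop (show 0 < κ / 2 by positivity)).comp
      tendsto_natCast_atTop_atTop).eventually_ge_atTop (1 + ‖a‖))
    refine ⟨max (max N₁ N₂) 1, fun N hN b hb σ t hσ1 hσ2 h0 => ?_⟩
    have hN₁ : N₁ ≤ N := (le_max_left _ _).trans ((le_max_left _ _).trans hN)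
    have hN₂' : N₂ ≤ N := (le_max_right _ _).trans ((le_max_left _ _).trans hN)
    have hN1 : 1 ≤ N := (le_max_right _ _).trans hN
    have hN0 : (0 : ℝ) < N := by exact_mod_cast hN1
    have h3 := h₁ N hN₁ b hb σ hσ1 hσ2 t (fun z hz1 hz2 hz3 => by
      refine h0 z ?_ hz2 ?_
      · have := min_le_left (δ / 3) (1 / 12)
        linarith
      · unfold F P at hz3
        exact sub_eq_zero.1 hz3)
    have h4 : (1 : ℝ) + ‖a‖ ≤ (N : ℝ) ^ (κ / 2) := hN₂ N hN₂'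
    have h5 : ∑ n ∈ Finset.Icc N (2 * N), b n * (n : ℂ) ^ (-(⟨σ, t⟩ : ℂ)) = F N a b ⟨σ, t⟩ + a := by
      unfold F P
      ring
    have h6 : (N : ℝ) ^ κ = (N : ℝ) ^ (κ / 2) * (N : ℝ) ^ (κ / 2) := by
      rw [← Real.rpow_add hN0, add_halves]
    rw [h5, h6]
    refine (norm_add_le _ _).trans ?_
    nlinarith [norm_nonneg a]
  · constructor
    · intro h A σ hA h3 h4
      exact (h2 (1 / 2) A le_rfl).1 (fun σ h1 _ => h A σ h1) σ h3 h4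
    · intro h A σ hσ
      have h5 : LargeValues σ (max A 1) := by
        rcases le_or_gt σ 1 with h6 | h6
        · exact (h2 (1 / 2) (max A 1) le_rfl).2 (fun σ h1 h2 => h (max A 1) σ (le_max_right _ _) h1 h2) σ hσ h6
        · exact (largeValues_iff σ _).2 (LVs_right h6)
      intro ε hε
      obtain ⟨C, hC⟩ := h5 ε hε
      refine ⟨C, fun N hN T hNT hTA => hC N hN T hNT (hTA.trans (pw hN (le_max_left _ _)))⟩

end Pool.Agent.Results.MP_ecd12e_nt.SolutionsOfSetSums
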