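import Pool.Agent.TH804.GZ5

/-!
# Montgomery's large value conjecture: weights, exceptional integers, coefficients in `ℂ^k`

For each `σ₀` and `A` the large value estimates of Q1 for all `σ > σ₀` are equivalent to an `ℓ²`
inequality with weights depending on the set of points, to the large sieve inequality off few
integers, and to the same estimates for vectors. Weights not depending on the points do not exist,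
and not even for `ℓ^r`, `r < 4`.
-/

set_option autoImplicit false

open Pool.Agent.TH804.GZ

namespace Pool.Agent.Results.MP_ecd12e_nt.WeightedForms

/-- `n^{it}` -/
noncomputable def E (t : ℝ) (n : ℕ) : ℂ := Complex.exp (((t * Real.log (n : ℝ) : ℝ) : ℂ) * Complex.I)

/-- the large value estimate of Q1 for given `σ` and `A` -/
def LargeValues (σ A : ℝ) : Prop := ∀ ε : ℝ, ε > 0 → ∃ C : ℝ,
  ∀ N : ℕ, 1 ≤ N → ∀ T : ℝ, (N : ℝ) ≤ T → T ≤ (N : ℝ) ^ A →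
  ∀ b : ℕ → ℂ, (∀ n, ‖b n‖ ≤ 1) →
  ∀ W : Finset ℤ,
    (∀ t ∈ W, 0 ≤ (t : ℝ) ∧ (t : ℝ) ≤ T ∧
      (N : ℝ) ^ σ < ‖∑ n ∈ Finset.Icc N (2 * N), b n * E t n‖) →
    (W.card : ℝ) ≤ C * (N : ℝ) ^ (2 - 2 * σ + ε)

/-- the large value estimate for coefficients `(b_{0,n}, ..., b_{k-1,n}) ∈ ℂ^k`, all `k` -/
def VectorLargeValues (σ A : ℝ) : Prop := ∀ ε : ℝ, ε > 0 → ∃ C : ℝ,
  ∀ N : ℕ, 1 ≤ N → ∀ T : ℝ, (N : ℝ) ≤ T → T ≤ (N : ℝ) ^ A →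
  ∀ (k : ℕ) (b : ℕ → ℕ → ℂ), (∀ n, ∑ j ∈ Finset.range k, ‖b j n‖ ^ 2 ≤ 1) →
  ∀ W : Finset ℤ,
    (∀ t ∈ W, 0 ≤ (t : ℝ) ∧ (t : ℝ) ≤ T ∧
      (N : ℝ) ^ σ < Real.sqrt (∑ j ∈ Finset.range k, ‖∑ n ∈ Finset.Icc N (2 * N), b j n * E t n‖ ^ 2)) →
    (W.card : ℝ) ≤ C * (N : ℝ) ^ (2 - 2 * σ + ε)

/-- For each set `W` of integers in `[0, T]` there are weights `p_n ≥ 0` of sum 1 on `[N, 2N]` with
`∑_{t ∈ W} |∑ b_n n^{it}|² ≤ C N^ε (N² + N^{2σ₀} |W|) ∑ p_n |b_n|²` for all complex `b_n`. -/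
def WeightedForm (σ₀ A : ℝ) : Prop := ∀ ε : ℝ, 0 < ε → ∃ C : ℝ, 0 < C ∧
  ∀ N : ℕ, 1 ≤ N → ∀ T : ℝ, (N : ℝ) ≤ T → T ≤ (N : ℝ) ^ A →
  ∀ W : Finset ℤ, (∀ t ∈ W, 0 ≤ (t : ℝ) ∧ (t : ℝ) ≤ T) →
  ∃ p : ℕ → ℝ, (∀ n, 0 ≤ p n) ∧ ∑ n ∈ Finset.Icc N (2 * N), p n = 1 ∧
    ∀ b : ℕ → ℂ, ∑ t ∈ W, ‖∑ n ∈ Finset.Icc N (2 * N), b n * E t n‖ ^ 2 ≤
      C * ((N : ℝ) ^ ε * ((N : ℝ) ^ 2 + (N : ℝ) ^ (2 * σ₀) * W.card)) *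
        ∑ n ∈ Finset.Icc N (2 * N), p n * ‖b n‖ ^ 2

/-- For each set `W` of integers in `[0, T]` and each `K ≥ 1` there is a set `B` of at most `N/K`
integers of `[N, 2N]` with
`∑_{t ∈ W} |∑ b_n n^{it}|² ≤ C N^ε (N² + N^{2σ₀} |W|) (K/N) ∑ |b_n|²`
for all complex `b_n` that are 0 on `B`. -/
def ExceptionalForm (σ₀ A : ℝ) : Prop := ∀ ε : ℝ, 0 < ε → ∃ C : ℝ, 0 < C ∧
  ∀ N : ℕ, 1 ≤ N → ∀ T : ℝ, (N : ℝ) ≤ T → T ≤ (N : ℝ) ^ A →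
  ∀ W : Finset ℤ, (∀ t ∈ W, 0 ≤ (t : ℝ) ∧ (t : ℝ) ≤ T) → ∀ K : ℝ, 1 ≤ K →
  ∃ B : Finset ℕ, B ⊆ Finset.Icc N (2 * N) ∧ K * B.card ≤ N ∧
    ∀ b : ℕ → ℂ, (∀ n ∈ B, b n = 0) →
      ∑ t ∈ W, ‖∑ n ∈ Finset.Icc N (2 * N), b n * E t n‖ ^ 2 ≤
        C * ((N : ℝ) ^ ε * ((N : ℝ) ^ 2 + (N : ℝ) ^ (2 * σ₀) * W.card)) * (K / N) *
          ∑ n ∈ Finset.Icc N (2 * N), ‖b n‖ ^ 2

/-- `|∑ b_n n^{it}| > N^σ` for at least `X` integers `t ∈ [0, T]` -/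
def ManyLargeValues (N : ℕ) (T σ X : ℝ) (b : ℕ → ℂ) : Prop := ∃ W : Finset ℤ,
  (∀ t ∈ W, 0 ≤ (t : ℝ) ∧ (t : ℝ) ≤ T ∧
    (N : ℝ) ^ σ < ‖∑ n ∈ Finset.Icc N (2 * N), b n * E t n‖) ∧ X ≤ W.card

/-- (1) The large value estimates for all `σ > σ₀` are equivalent to the weighted form, to the form
with exceptional integers and to the estimates for vectors, for each `σ₀ ≥ 0` and `A`. (2) If
`2 ≤ r < 4` the estimates fail for `1/2 < σ < 3/(r+2)` if `|b_n| ≤ 1` is replaced by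
`∑ p_n |b_n|^r ≤ 1`, for any weights `p_n` of sum at most 1, and if it is replaced by
`∑ |b_n|^r ≤ N` and `b_n = 0` on `B`, for any set `B` of at most `N/4` integers. -/
theorem result :
    (∀ σ₀ A : ℝ, 0 ≤ σ₀ →
      ((∀ σ : ℝ, σ > σ₀ → LargeValues σ A) ↔ WeightedForm σ₀ A) ∧
      ((∀ σ : ℝ, σ > σ₀ → LargeValues σ A) ↔ ExceptionalForm σ₀ A) ∧
      ((∀ σ : ℝ, σ > σ₀ → LargeValues σ A) ↔ ∀ σ : ℝ, σ > σ₀ → VectorLargeValues σ A)) ∧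
    (∀ σ r δ : ℝ, 2 ≤ r → 1 / 2 < σ → σ < 3 / (r + 2) → δ < (3 - (r + 2) * σ) / (r - 1) →
      ∃ N₀ : ℕ, 1 ≤ N₀ ∧ ∀ N : ℕ, N₀ ≤ N → ∃ T : ℕ, N ≤ T ∧ T ≤ N ^ 2 ∧
        (∀ p : ℕ → ℝ, (∀ n, 0 ≤ p n) → ∑ n ∈ Finset.Icc N (2 * N), p n ≤ 1 →
          ∃ b : ℕ → ℂ, ∑ n ∈ Finset.Icc N (2 * N), p n * ‖b n‖ ^ r ≤ 1 ∧
            ManyLargeValues N T σ ((N : ℝ) ^ (2 - 2 * σ + δ)) b) ∧
        (∀ B : Finset ℕ, 4 * B.card ≤ N →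
          ∃ b : ℕ → ℂ, (∀ n ∈ B, b n = 0) ∧ ∑ n ∈ Finset.Icc N (2 * N), ‖b n‖ ^ r ≤ N ∧
            ManyLargeValues N T σ ((N : ℝ) ^ (2 - 2 * σ + δ)) b)) := by
  constructor
  · intro σ₀ A hσ₀
    have h1 : (∀ σ : ℝ, σ > σ₀ → LargeValues σ A) → WF σ₀ A := fun h => WF_of_MSQ (MSQ_of_LV hσ₀ h)
    have h2 : EF σ₀ A → ∀ σ : ℝ, σ > σ₀ → LargeValues σ A := fun h => LV_of_MSQ (MSQ_of_EF h)
    refine ⟨⟨h1, fun h => h2 (EF_of_WF h)⟩, ⟨fun h => EF_of_WF (h1 h), h2⟩,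
      ⟨fun h => VLV_of_LV h, fun h σ hσ => LV_of_VLV (h σ hσ)⟩⟩
  · intro σ r δ hr hσ hσr hδ
    have h1 : (r + 2) * σ < 3 := by
      rw [lt_div_iff₀ (by linarith)] at hσr
      linarith
    exact no_weights hr hσ h1 hδ

end Pool.Agent.Results.MP_ecd12e_nt.WeightedForms
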